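import Mathlib

/-!
# Mane's critical value of the universal cover and connecting orbits: a counterexample on `S^3`

For the Lagrangian `L(x,v) = |v - A x|^2 / 2` on the tangent bundle of the round sphere
`S^3 ⊂ ℝ^4 = ℂ^2`, with `A` the Killing field `(z₁, z₂) ↦ (i z₁, 2 i z₂)`, the critical value is `0`
but every point can be reached from the point `(4/5, 3/5)` by a trajectory of energy `-1/10`.
The trajectories are explicit: great circles seen from a rotating frame.
-/

open scoped Manifold ContDiff Topology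
open Set Metric MeasureTheory

noncomputable section

namespace Pool.Agent.Results.MP_82af14_an.S3Disproof

/-! ## General definitions -/

section General

variable {E : Type*} [NormedAddCommGroup E] [NormedSpace ℝ E]
  {H : Type*} [TopologicalSpace H] (I : ModelWithCorners ℝ E H)
  {M : Type*} [TopologicalSpace M] [ChartedSpace H M]
  {M' : Type*} [TopologicalSpace M'] [ChartedSpace H M']

/-- The velocity vector `(γ t, γ' t)` of a curve `γ` in the manifold `M`. -/
def velocity (γ : ℝ → M) (t : ℝ) : TangentBundle I M :=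
  ⟨γ t, mfderiv 𝓘(ℝ, ℝ) I γ t (1 : ℝ)⟩

/-- The action of the Lagrangian `L` along the curve `γ` on `[0,T]`. -/
def action (L : TangentBundle I M → ℝ) (T : ℝ) (γ : ℝ → M) : ℝ :=
  ∫ t in (0 : ℝ)..T, L (velocity I γ t)

/-- The energy `E(x,v) = ∂L/∂v (x,v) · v - L(x,v)`. -/
def energy (L : TangentBundle I M → ℝ) (p : TangentBundle I M) : ℝ :=
  deriv (fun s : ℝ => L ⟨p.1, s • p.2⟩) 1 - L p

/-- `γ` is, on `[0,T]`, a solution of the Euler-Lagrange equation of `L`: it is a `C^2` curve and it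
is a critical point of the action among `C^2` curves with the same endpoints. -/
def IsExtremal (L : TangentBundle I M → ℝ) (T : ℝ) (γ : ℝ → M) : Prop :=
  ContMDiff 𝓘(ℝ, ℝ) I 2 γ ∧
  ∀ Γ : ℝ × ℝ → M, ContMDiff 𝓘(ℝ, ℝ × ℝ) I 2 Γ →
    (∀ t, Γ (0, t) = γ t) → (∀ s, Γ (s, 0) = γ 0) → (∀ s, Γ (s, T) = γ T) →
    HasDerivAt (fun s => action I L T (fun t => Γ (s, t))) 0 0

/-- Absolutely continuous curves `[0,T] → M`: composed with every smooth function they are
absolutely continuous functions on `[0,T]`. -/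
def IsACCurve (T : ℝ) (γ : ℝ → M) : Prop :=
  ContinuousOn γ (Icc 0 T) ∧
  ∀ f : M → ℝ, ContMDiff I 𝓘(ℝ, ℝ) ∞ f → AbsolutelyContinuousOnInterval (f ∘ γ) 0 T

/-- The set of all `k` such that the action of `L + k` is nonnegative on every closed absolutely
continuous curve in `M`.  Its infimum is the critical value of `L` on `M`. -/
def nonnegLevels (L : TangentBundle I M → ℝ) : Set ℝ :=
  {k | ∀ T : ℝ, 0 < T → ∀ γ : ℝ → M, IsACCurve I T γ → γ 0 = γ T →
    0 ≤ ∫ t in (0 : ℝ)..T, (L (velocity I γ t) + k)}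

/-- The set of all `h` such that there is a point `x` of `M` which can be joined to every point `y`
of `M` by a trajectory `γ : [0,T] → M`, `T > 0`, of energy `h`. -/
def connectingEnergies (L : TangentBundle I M → ℝ) : Set ℝ :=
  {h | ∃ x : M, ∀ y : M, ∃ T : ℝ, 0 < T ∧ ∃ γ : ℝ → M, IsExtremal I L T γ ∧
    γ 0 = x ∧ γ T = y ∧ ∀ t ∈ Icc 0 T, energy I L (velocity I γ t) = h}

/-- The lift of a Lagrangian on `TM` to `TM'` along a map `p : M' → M`. -/
def liftLagrangian (p : M' → M) (L : TangentBundle I M → ℝ) : TangentBundle I M' → ℝ :=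
  fun v => L (tangentMap I I p v)

/-- `p : M' → M` is the universal covering of the smooth manifold `M`. -/
structure IsUniversalCovering (p : M' → M) : Prop where
  simplyConnected : SimplyConnectedSpace M'
  isCoveringMap : IsCoveringMap p
  isLocalDiffeomorph : IsLocalDiffeomorph I I ∞ p

variable [IsManifold I ∞ M]

/-- `C^2` Lagrangians on `TM` which are convex (the second derivative of `L` along every fibre
direction is positive) and superlinear (`L(x,v) / |v| → ∞` as `|v| → ∞`, uniformly in `x`, for some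
smooth Riemannian metric `g`). -/
structure IsConvexSuperlinear (L : TangentBundle I M → ℝ) : Prop where
  contMDiff : ContMDiff I.tangent 𝓘(ℝ, ℝ) 2 L
  convex : ∀ (x : M) (v w : TangentSpace I x), w ≠ 0 →
    0 < iteratedDeriv 2 (fun s : ℝ => L ⟨x, v + s • w⟩) 0
  superlinear : ∃ g : ∀ x : M, TangentSpace I x →ₗ[ℝ] TangentSpace I x →ₗ[ℝ] ℝ,
    (∀ x v w, g x v w = g x w v) ∧ (∀ x v, v ≠ 0 → 0 < g x v v) ∧
    ContMDiff I.tangent 𝓘(ℝ, ℝ) ∞ (fun p : TangentBundle I M => g p.1 p.2 p.2) ∧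
    ∀ C : ℝ, ∃ K : ℝ, ∀ (x : M) (v : TangentSpace I x),
      K ≤ √(g x v v) → C * √(g x v v) ≤ L ⟨x, v⟩

end General

/-- Euclidean space `ℝ^4`. -/
abbrev E4 := EuclideanSpace ℝ (Fin 4)
/-- The unit sphere `S^3` in `ℝ^4`. -/
abbrev S3 := sphere (0 : E4) 1

local instance factE4 : Fact (Module.finrank ℝ E4 = 3 + 1) := ⟨finrank_euclideanSpace_fin⟩

/-! ## `S^3` is simply connected -/

section SimplyConnected

open scoped unitInterval

/-- normalisation to the sphere -/
def nrm (v : E4) (h : v ≠ 0) : S3 := ⟨‖v‖⁻¹ • v, by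
  rw [mem_sphere_zero_iff_norm, norm_smul, norm_inv, norm_norm,
    inv_mul_cancel₀ (norm_ne_zero_iff.2 h)]⟩

lemma punctured_simplyConnected (p : S3) : SimplyConnectedSpace ({p}ᶜ : Set S3) := by
  have hp : ‖(p : E4)‖ = 1 := by simp
  have e := (stereographic hp).toHomeomorphSourceTarget
  have hs : (stereographic hp).source = {p}ᶜ := by
    rw [stereographic_source]
  have ht : (stereographic hp).target = univ := stereographic_target hp
  rw [hs, ht] at e
  have e2 : ({p}ᶜ : Set S3) ≃ₜ (ℝ ∙ (p : E4))ᗮ := e.trans (Homeomorph.Set.univ _)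
  exact e2.toHomotopyEquiv.simplyConnectedSpace

lemma exists_smooth_loop (x : S3) (γ : Path x x) :
    ∃ w : ℝ → E4, ContDiff ℝ 1 w ∧ w 0 = x ∧ w 1 = x ∧
      ∀ t : I, ‖w t - (γ t : E4)‖ < 1 := by
  have hf : Continuous (fun t : ℝ => ((γ.extend t : S3) : E4)) :=
    continuous_subtype_val.comp γ.continuous_extend
  obtain ⟨g, hg, hga, -⟩ := hf.exists_contDiff_approx (ε := fun _ => 1 / 2) 1
    continuous_const (fun _ => by norm_num)
  refine ⟨fun t => g t - ((1 - t) • (g 0 - x) + t • (g 1 - x)), ?_, ?_, ?_, ?_⟩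
  · have : ContDiff ℝ 1 g := by simpa using hg
    fun_prop
  · simp
  · simp
  · intro t
    have h0 := hga 0
    have h1 := hga 1
    have ht := hga t
    simp only [Path.extend_zero, Path.extend_one, dist_eq_norm] at h0 h1 ht
    rw [Path.extend_apply γ t.2] at ht
    have e : g t - ((1 - (t : ℝ)) • (g 0 - (x : E4)) + (t : ℝ) • (g 1 - (x : E4))) - (γ t : E4)
        = (g t - γ t) - ((1 - (t : ℝ)) • (g 0 - (x : E4)) + (t : ℝ) • (g 1 - (x : E4))) := by abel
    rw [e]
    have t0 : 0 ≤ (t : ℝ) := t.2.1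
    have t1 : 0 ≤ 1 - (t : ℝ) := by linarith [t.2.2]
    calc ‖(g t - γ t) - ((1 - (t : ℝ)) • (g 0 - (x : E4)) + (t : ℝ) • (g 1 - (x : E4)))‖
        ≤ ‖g t - γ t‖ + ‖(1 - (t : ℝ)) • (g 0 - (x : E4)) + (t : ℝ) • (g 1 - (x : E4))‖ :=
          norm_sub_le _ _
      _ ≤ ‖g t - γ t‖ + (‖(1 - (t : ℝ)) • (g 0 - (x : E4))‖ + ‖(t : ℝ) • (g 1 - (x : E4))‖) := by
          gcongr; exact norm_add_le _ _
      _ = ‖g t - γ t‖ + ((1 - (t : ℝ)) * ‖g 0 - (x : E4)‖ + t * ‖g 1 - (x : E4)‖) := by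
          rw [norm_smul, norm_smul, Real.norm_eq_abs, Real.norm_eq_abs, abs_of_nonneg t0,
            abs_of_nonneg t1]
      _ < 1 / 2 + ((1 - (t : ℝ)) * (1 / 2) + t * (1 / 2)) := by
          apply add_lt_add_of_lt_of_le ht
          gcongr
      _ = 1 := by ring


lemma exists_missed (w : ℝ → E4) (hw : ContDiff ℝ 1 w) :
    ∃ p : S3, ∀ r t : ℝ, r • w t ≠ (p : E4) := by
  have hf : ContDiff ℝ 1 (fun z : ℝ × ℝ => z.1 • w z.2) :=
    contDiff_fst.smul (hw.comp contDiff_snd)
  have hd := hf.dense_compl_range_of_finrank_lt_finrank (by simp)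
  have ho : IsOpen ({0}ᶜ : Set E4) := isOpen_compl_singleton
  have hne : ({0}ᶜ : Set E4).Nonempty := ⟨EuclideanSpace.single 0 1, by simp⟩
  obtain ⟨z, hz0, hz⟩ := hd.inter_open_nonempty _ ho hne
  have hz0' : z ≠ 0 := hz0
  refine ⟨nrm z hz0', fun r t h => hz ⟨(‖z‖ * r, t), ?_⟩⟩
  have h' : r • w t = ‖z‖⁻¹ • z := h
  show (‖z‖ * r) • w t = z
  rw [mul_smul, h', smul_inv_smul₀ (norm_ne_zero_iff.2 hz0')]

lemma loops_null (x : S3) (γ : Path x x) : Path.Homotopic γ (Path.refl x) := by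
  obtain ⟨w, hw, hw0, hw1, hwγ⟩ := exists_smooth_loop x γ
  obtain ⟨p, hp⟩ := exists_missed w hw
  have hγn : ∀ t : I, ‖(γ t : E4)‖ = 1 := fun t => by simp
  -- the straight line homotopy never vanishes
  have hne : ∀ (s t : I), (γ t : E4) + (s : ℝ) • (w t - (γ t : E4)) ≠ 0 := by
    intro s t h
    have h1 : (γ t : E4) = -((s : ℝ) • (w t - (γ t : E4))) := eq_neg_of_add_eq_zero_left h
    have h2 := hγn t
    rw [h1, norm_neg, norm_smul, Real.norm_eq_abs, abs_of_nonneg s.2.1] at h2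
    have h3 := hwγ t
    have h4 : (s : ℝ) ≤ 1 := s.2.2
    have h5 : 0 ≤ (s : ℝ) := s.2.1
    nlinarith [norm_nonneg (w t - (γ t : E4))]
  have hwne : ∀ t : I, w t ≠ 0 := by
    intro t
    have := hne 1 t
    simpa using this
  have hwc : Continuous (fun t : I => w t) := hw.continuous.comp continuous_subtype_val
  have hγc : Continuous (fun t : I => (γ t : E4)) := continuous_subtype_val.comp γ.continuous
  -- the normalised loop
  have hxn : ‖(x : E4)‖ = 1 := by simp
  let N : Path x x :=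
    { toFun := fun t => nrm (w t) (hwne t)
      continuous_toFun := by
        apply Continuous.subtype_mk
        exact (hwc.norm.inv₀ (fun t => norm_ne_zero_iff.2 (hwne t))).smul hwc
      source' := by
        apply Subtype.ext
        simp [nrm, hw0]
      target' := by
        apply Subtype.ext
        simp [nrm, hw1] }
  have h1 : Path.Homotopic γ N := by
    refine ⟨{ toFun := fun z => nrm _ (hne z.1 z.2)
              continuous_toFun := ?_
              map_zero_left := ?_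
              map_one_left := ?_
              prop' := ?_ }⟩
    · apply Continuous.subtype_mk
      have hc : Continuous (fun z : I × I =>
          (γ z.2 : E4) + ((z.1 : I) : ℝ) • (w z.2 - (γ z.2 : E4))) := by
        have h1 : Continuous (fun z : I × I => (γ z.2 : E4)) := hγc.comp continuous_snd
        have h2 : Continuous (fun z : I × I => w z.2) := hwc.comp continuous_snd
        have h3 : Continuous (fun z : I × I => ((z.1 : I) : ℝ)) :=
          continuous_subtype_val.comp continuous_fst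
        exact h1.add (h3.smul (h2.sub h1))
      exact (hc.norm.inv₀ (fun z => norm_ne_zero_iff.2 (hne z.1 z.2))).smul hc
    · intro t
      apply Subtype.ext
      simp [nrm]
    · intro t
      apply Subtype.ext
      simp [nrm, N]
    · intro s t ht
      apply Subtype.ext
      rcases ht with rfl | ht
      · simp [nrm, hw0]
      · rw [Set.mem_singleton_iff] at ht
        subst ht
        simp [nrm, hw1]
  -- the normalised loop avoids `p`
  have hNp : ∀ t : I, N t ∈ ({p}ᶜ : Set S3) := by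
    intro t h
    have h' : N t = p := h
    exact hp (‖w t‖⁻¹) t (congrArg Subtype.val h')
  have hx : x ∈ ({p}ᶜ : Set S3) := by
    have := hNp 0
    simpa using this
  have := punctured_simplyConnected p
  let N' : Path (⟨x, hx⟩ : ({p}ᶜ : Set S3)) ⟨x, hx⟩ :=
    { toFun := fun t => ⟨N t, hNp t⟩
      continuous_toFun := N.continuous.subtype_mk _
      source' := by simp
      target' := by simp }
  have h2 : Path.Homotopic N' (Path.refl _) := SimplyConnectedSpace.paths_homotopic _ _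
  have h3 := h2.map ⟨Subtype.val, continuous_subtype_val⟩
  have h4 : Path.Homotopic N (Path.refl x) := by
    convert! h3 using 1
  exact h1.trans h4

theorem simplyConnected_S3 : SimplyConnectedSpace S3 := by
  rw [simply_connected_iff_loops_nullhomotopic]
  refine ⟨?_, loops_null⟩
  rw [← isPathConnected_iff_pathConnectedSpace]
  apply isPathConnected_sphere _ _ zero_le_one
  rw [← Module.finrank_eq_rank]
  simp

end SimplyConnected

/-! ## The rotating frame and the first variation -/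

lemma velocity_val (γ : ℝ → S3) (t : ℝ) (h : MDifferentiableAt 𝓘(ℝ, ℝ) (𝓡 3) γ t) :
    mvfderiv (𝓡 3) (Subtype.val : S3 → E4) (γ t) (mfderiv 𝓘(ℝ, ℝ) (𝓡 3) γ t (1 : ℝ))
      = deriv (fun t => (γ t : E4)) t := by
  have h1 : MDifferentiableAt (𝓡 3) 𝓘(ℝ, E4) (Subtype.val : S3 → E4) (γ t) :=
    (contMDiff_coe_sphere (n := 3) (m := 1) (γ t)).mdifferentiableAt one_ne_zero
  have h2 := mfderiv_comp t h1 h
  rw [mfderiv_eq_fderiv] at h2
  have h3 : deriv (fun t => (γ t : E4)) t = fderiv ℝ ((Subtype.val : S3 → E4) ∘ γ) t 1 := rfl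
  rw [h3, h2]
  rfl

/-- the rotation generator as a continuous linear map -/
def A : E4 →L[ℝ] E4 :=
  LinearMap.toContinuousLinearMap
    { toFun := fun x => !₂[-x 1, x 0, -2 * x 3, 2 * x 2]
      map_add' := by
        intro x y; ext i; fin_cases i <;> simp <;> ring
      map_smul' := by
        intro c x; ext i; fin_cases i <;> simp <;> ring }

lemma A_apply (x : E4) : A x = !₂[-x 1, x 0, -2 * x 3, 2 * x 2] := rfl

lemma inner4 (x y : E4) : inner ℝ x y = x 0 * y 0 + x 1 * y 1 + x 2 * y 2 + x 3 * y 3 := by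
  simp [PiLp.inner_apply, Fin.sum_univ_four]; ring

lemma A_skew (x y : E4) : inner ℝ (A x) y = - inner ℝ x (A y) := by
  rw [inner4, inner4, A_apply, A_apply]; simp; ring

lemma hasDerivAt_E4 {f : ℝ → E4} {f' : E4} {t : ℝ}
    (h : ∀ i, HasDerivAt (fun u => f u i) (f' i) t) : HasDerivAt f f' t := by
  rw [hasDerivAt_iff_hasFDerivAt, ← hasFDerivWithinAt_univ, hasFDerivWithinAt_euclidean]
  intro i
  have := (h i).hasFDerivAt.hasFDerivWithinAt (s := univ)
  convert! this using 1

/-- rotation flow -/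
def R (t : ℝ) (x : E4) : E4 :=
  !₂[Real.cos t * x 0 - Real.sin t * x 1, Real.sin t * x 0 + Real.cos t * x 1,
     Real.cos (2 * t) * x 2 - Real.sin (2 * t) * x 3,
     Real.sin (2 * t) * x 2 + Real.cos (2 * t) * x 3]

lemma hasDerivAt_R {c : ℝ → E4} {c' : E4} {t : ℝ} (h : HasDerivAt c c' t) :
    HasDerivAt (fun u => R u (c u)) (A (R t (c t)) + R t c') t := by
  have hc : ∀ i, HasDerivAt (fun u => c u i) (c' i) t := by
    intro i
    rw [hasDerivAt_iff_hasFDerivAt, ← hasFDerivWithinAt_univ, hasFDerivWithinAt_euclidean] at h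
    have := (h i).hasDerivWithinAt.hasDerivAt (by simp)
    simpa using this
  have h2 : HasDerivAt (fun u : ℝ => 2 * u) 2 t := by simpa using (hasDerivAt_id t).const_mul 2
  have hs := Real.hasDerivAt_sin t
  have hcs := Real.hasDerivAt_cos t
  have hs2 : HasDerivAt (fun u => Real.sin (2 * u)) (Real.cos (2 * t) * 2) t := h2.sin
  have hc2 : HasDerivAt (fun u => Real.cos (2 * u)) (-Real.sin (2 * t) * 2) t := h2.cos
  apply hasDerivAt_E4
  intro i
  fin_cases i
  · have := (hcs.mul (hc 0)).sub (hs.mul (hc 1))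
    convert! this using 1
    simp [A_apply, R]; ring
  · have := (hs.mul (hc 0)).add (hcs.mul (hc 1))
    convert! this using 1
    simp [A_apply, R]; ring
  · have := (hc2.mul (hc 2)).sub (hs2.mul (hc 3))
    convert! this using 1
    simp [A_apply, R]; ring
  · have := (hs2.mul (hc 2)).add (hc2.mul (hc 3))
    convert! this using 1
    simp [A_apply, R]; ring

lemma R_inner (t : ℝ) (x y : E4) : inner ℝ (R t x) (R t y) = inner ℝ x y := by
  rw [inner4, inner4]
  simp [R]
  have h1 := Real.sin_sq_add_cos_sq t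
  have h2 := Real.sin_sq_add_cos_sq (2 * t)
  linear_combination (x 0 * y 0 + x 1 * y 1) * h1 + (x 2 * y 2 + x 3 * y 3) * h2

lemma R_A (t : ℝ) (x : E4) : R t (A x) = A (R t x) := by
  ext i; fin_cases i <;> simp [R, A_apply] <;> ring

lemma R_add (t : ℝ) (x y : E4) : R t (x + y) = R t x + R t y := by
  ext i; fin_cases i <;> simp [R] <;> ring

lemma R_smul (t c : ℝ) (x : E4) : R t (c • x) = c • R t x := by
  ext i; fin_cases i <;> simp [R] <;> ring

lemma R_neg_R (t : ℝ) (x : E4) : R t (R (-t) x) = x := by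
  have h1 := Real.sin_sq_add_cos_sq t
  have h2 := Real.sin_sq_add_cos_sq (2 * t)
  ext i; fin_cases i <;> simp [R]
  · linear_combination (x 0) * h1
  · linear_combination (x 1) * h1
  · linear_combination (x 2) * h2
  · linear_combination (x 3) * h2


lemma first_variation (G : ℝ × ℝ → E4) (hG : ContDiff ℝ 2 G) (hn : ∀ p, ‖G p‖ = 1) (T : ℝ)
    (g q : ℝ → E4) (s : ℝ)
    (hg : ∀ t, HasDerivAt g (A (g t) + s • q t) t)
    (hq : ∀ t, HasDerivAt q (A (q t) - s • g t) t)
    (h0 : ∀ t, G (0, t) = g t) (ha : ∀ u, G (u, 0) = g 0) (hb : ∀ u, G (u, T) = g T) :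
    HasDerivAt (fun u => ∫ t in (0 : ℝ)..T,
      (1 / 2) * ‖deriv (fun t => G (u, t)) t - A (G (u, t))‖ ^ 2) 0 0 := by
  have hGd : ∀ z, HasFDerivAt G (fderiv ℝ G z) z := fun z =>
    (hG.differentiable (by norm_num) z).hasFDerivAt
  have hline1 : ∀ u t : ℝ, HasDerivAt (fun t => ((u, t) : ℝ × ℝ)) ((0, 1) : ℝ × ℝ) t := fun u t =>
    (hasDerivAt_const t u).prodMk (hasDerivAt_id t)
  have hline2 : ∀ u t : ℝ, HasDerivAt (fun u => ((u, t) : ℝ × ℝ)) ((1, 0) : ℝ × ℝ) u := fun u t =>
    (hasDerivAt_id u).prodMk (hasDerivAt_const u t)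
  have hGt : ∀ u t : ℝ, HasDerivAt (fun t => G (u, t)) (fderiv ℝ G (u, t) (0, 1)) t := fun u t =>
    (hGd (u, t)).comp_hasDerivAt t (hline1 u t)
  have hGu : ∀ u t : ℝ, HasDerivAt (fun u => G (u, t)) (fderiv ℝ G (u, t) (1, 0)) u := fun u t =>
    (hGd (u, t)).comp_hasDerivAt u (hline2 u t)
  have hD : ContDiff ℝ 1 (fderiv ℝ G) := hG.fderiv_right (by norm_num)
  set P : ℝ × ℝ → E4 := fun z => fderiv ℝ G z (0, 1) - A (G z) with hP
  have hPc : ContDiff ℝ 1 P := by
    apply ContDiff.sub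
    · exact hD.clm_apply contDiff_const
    · exact A.contDiff.comp (hG.of_le (by norm_num))
  set F : ℝ × ℝ → ℝ := fun z => (1 / 2) * ‖P z‖ ^ 2 with hF
  have hFc : ContDiff ℝ 1 F := contDiff_const.mul (hPc.norm_sq ℝ)
  have hFd : ∀ z, HasFDerivAt F (fderiv ℝ F z) z := fun z =>
    (hFc.differentiable (by norm_num) z).hasFDerivAt
  have hFu1 : ∀ u t : ℝ, HasDerivAt (fun u => F (u, t)) (fderiv ℝ F (u, t) (1, 0)) u := by
    intro u t
    have h := (hFd (u, t)).comp_hasDerivAt (f := fun u => ((u, t) : ℝ × ℝ)) u (hline2 u t)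
    exact h
  have hF'c : Continuous (fun z => fderiv ℝ F z (1, 0)) :=
    (hFc.continuous_fderiv (by norm_num)).clm_apply continuous_const
  have hrew : (fun u => ∫ t in (0 : ℝ)..T,
      (1 / 2) * ‖deriv (fun t => G (u, t)) t - A (G (u, t))‖ ^ 2)
      = fun u => ∫ t in (0 : ℝ)..T, F (u, t) := by
    funext u
    congr 1
    funext t
    rw [(hGt u t).deriv]
  rw [hrew]
  have hcomp : IsCompact ((Icc (-1 : ℝ) 1) ×ˢ (uIcc 0 T)) := isCompact_Icc.prod isCompact_uIcc
  obtain ⟨C, hC⟩ := hcomp.exists_bound_of_continuousOn (f := fun z => fderiv ℝ F z (1, 0))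
    hF'c.continuousOn
  have key := intervalIntegral.hasDerivAt_integral_of_dominated_loc_of_deriv_le
    (μ := volume) (a := 0) (b := T) (F := fun u t => F (u, t))
    (F' := fun u t => fderiv ℝ F (u, t) (1, 0)) (x₀ := (0 : ℝ)) (s := ball (0 : ℝ) 1)
    (bound := fun _ => C) (ball_mem_nhds _ one_pos)
    (Filter.Eventually.of_forall fun u =>
      ((hFc.continuous.comp (by fun_prop : Continuous fun t : ℝ => ((u, t) : ℝ × ℝ)))
        ).aestronglyMeasurable)
    ((hFc.continuous.comp (by fun_prop : Continuous fun t : ℝ => (((0 : ℝ), t) : ℝ × ℝ))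
        ).intervalIntegrable _ _)
    ((hF'c.comp (by fun_prop : Continuous fun t : ℝ => (((0 : ℝ), t) : ℝ × ℝ))
        ).aestronglyMeasurable)
    (Filter.Eventually.of_forall fun t ht u hu => by
      apply hC (u, t)
      refine ⟨?_, uIoc_subset_uIcc ht⟩
      rw [mem_ball, dist_zero_right, Real.norm_eq_abs, abs_lt] at hu
      exact ⟨hu.1.le, hu.2.le⟩)
    intervalIntegrable_const
    (Filter.Eventually.of_forall fun t _ u _ => hFu1 u t)
  have hval : (∫ t in (0 : ℝ)..T, fderiv ℝ F (0, t) (1, 0)) = 0 := by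
    -- the variation field
    set δ : ℝ → E4 := fun t => fderiv ℝ G (0, t) (1, 0) with hδ
    set δ' : ℝ → E4 := fun t => fderiv ℝ (fderiv ℝ G) (0, t) (0, 1) (1, 0) with hδ'
    have hDd : ∀ z, HasFDerivAt (fderiv ℝ G) (fderiv ℝ (fderiv ℝ G) z) z := fun z =>
      (hD.differentiable (by norm_num) z).hasFDerivAt
    have hδd : ∀ t, HasDerivAt δ (δ' t) t := by
      intro t
      have h1 : HasDerivAt (fun t => fderiv ℝ G (0, t)) (fderiv ℝ (fderiv ℝ G) (0, t) (0, 1)) t :=
        (hDd (0, t)).comp_hasDerivAt t (hline1 0 t)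
      have h2 := h1.clm_apply (hasDerivAt_const t ((1, 0) : ℝ × ℝ))
      simpa using h2
    have hsymm : ∀ t, fderiv ℝ (fderiv ℝ G) (0, t) (1, 0) (0, 1) = δ' t := by
      intro t
      have hs : IsSymmSndFDerivAt ℝ G ((0, t) : ℝ × ℝ) :=
        (hG.contDiffAt).isSymmSndFDerivAt (by simp)
      exact hs (1, 0) (0, 1)
    have hPu : ∀ t, HasDerivAt (fun u => P (u, t)) (δ' t - A (δ t)) 0 := by
      intro t
      have h1 : HasDerivAt (fun u => fderiv ℝ G (u, t)) (fderiv ℝ (fderiv ℝ G) (0, t) (1, 0)) 0 :=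
        (hDd (0, t)).comp_hasDerivAt 0 (hline2 0 t)
      have h2 := h1.clm_apply (hasDerivAt_const (0 : ℝ) ((0, 1) : ℝ × ℝ))
      have h3 : HasDerivAt (fun u => A (G (u, t))) (A (δ t)) 0 :=
        A.hasFDerivAt.comp_hasDerivAt 0 (hGu 0 t)
      have h4 := h2.sub h3
      simp only [map_zero, add_zero, hsymm t] at h4
      exact h4
    have hP0 : ∀ t, P (0, t) = s • q t := by
      intro t
      have h1 : HasDerivAt (fun t => G (0, t)) (A (g t) + s • q t) t := by
        have : (fun t => G (0, t)) = g := funext h0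
        rw [this]; exact hg t
      have h2 := (hGt 0 t).unique h1
      simp only [hP, h2, h0 t]
      abel
    have hFu : ∀ t, fderiv ℝ F (0, t) (1, 0) = inner ℝ (s • q t) (δ' t - A (δ t)) := by
      intro t
      have h1 : HasDerivAt (fun u => F (u, t)) (fderiv ℝ F (0, t) (1, 0)) 0 := hFu1 0 t
      have h2 : HasDerivAt (fun u => F (u, t)) ((1 / 2) * (2 * inner ℝ (P (0, t)) (δ' t - A (δ t)))) 0 :=
        ((hPu t).norm_sq).const_mul _
      rw [h1.unique h2, hP0]
      ring
    have hgδ : ∀ t, inner ℝ (g t) (δ t) = (0 : ℝ) := by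
      intro t
      have h1 : HasDerivAt (fun u => ‖G (u, t)‖ ^ 2) (2 * inner ℝ (G (0, t)) (δ t)) 0 :=
        (hGu 0 t).norm_sq
      have h2 : (fun u => ‖G (u, t)‖ ^ 2) = fun _ => (1 : ℝ) := by
        funext u; rw [hn]; norm_num
      rw [h2] at h1
      have h3 := h1.unique (hasDerivAt_const (0 : ℝ) (1 : ℝ))
      rw [h0] at h3
      linarith
    have hint : ∀ t, HasDerivAt (fun t => inner ℝ (s • q t) (δ t))
        (fderiv ℝ F (0, t) (1, 0)) t := by
      intro t
      have h1 : HasDerivAt (fun t => s • q t) (s • (A (q t) - s • g t)) t := (hq t).const_smul s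
      have h2 := h1.inner ℝ (hδd t)
      convert! h2 using 1
      rw [hFu]
      simp only [inner_smul_left, inner_sub_left, inner_sub_right, A_skew, hgδ t]
      simp
      ring
    have hcont : Continuous (fun t => fderiv ℝ F (0, t) (1, 0)) :=
      hF'c.comp (by fun_prop : Continuous fun t : ℝ => (((0 : ℝ), t) : ℝ × ℝ))
    rw [intervalIntegral.integral_eq_sub_of_hasDerivAt (fun t _ => hint t)
      (hcont.intervalIntegrable _ _)]
    have hδ0 : δ 0 = 0 := by
      have h1 := hGu 0 0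
      have h2 : (fun u => G (u, 0)) = fun _ => g 0 := funext ha
      rw [h2] at h1
      exact h1.unique (hasDerivAt_const (0 : ℝ) (g 0))
    have hδT : δ T = 0 := by
      have h1 := hGu 0 T
      have h2 : (fun u => G (u, T)) = fun _ => g T := funext hb
      rw [h2] at h1
      exact h1.unique (hasDerivAt_const (0 : ℝ) (g T))
    rw [hδ0, hδT]
    simp
  have := key.2
  simp only [hval] at this
  exact this

/-! ## The Lagrangian -/

/-- The Lagrangian. -/
def lag (p : TangentBundle (𝓡 3) S3) : ℝ :=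
  (1 / 2) * ‖mvfderiv (𝓡 3) (Subtype.val : S3 → E4) p.1 p.2 - A (p.1 : E4)‖ ^ 2

lemma contMDiff_fib (n : ℕ∞ω) : ContMDiff (𝓡 3).tangent 𝓘(ℝ, E4) n
    (fun p : TangentBundle (𝓡 3) S3 => mvfderiv (𝓡 3) (Subtype.val : S3 → E4) p.1 p.2) := by
  have h1 : ContMDiff (𝓡 3) 𝓘(ℝ, E4) (n + 1) (Subtype.val : S3 → E4) :=
    contMDiff_coe_sphere (n := 3)
  have h2 := h1.contMDiff_tangentMap (m := n) le_rfl
  exact (contMDiff_snd_tangentBundle_modelSpace E4 𝓘(ℝ, E4)).comp h2

lemma contMDiff_base (n : ℕ∞ω) : ContMDiff (𝓡 3).tangent 𝓘(ℝ, E4) n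
    (fun p : TangentBundle (𝓡 3) S3 => (p.1 : E4)) :=
  (contMDiff_coe_sphere (n := 3)).comp (Bundle.contMDiff_proj _)

lemma contMDiff_lag (n : ℕ∞ω) : ContMDiff (𝓡 3).tangent 𝓘(ℝ, ℝ) n lag := by
  have h : ContDiff ℝ n (fun z : E4 × E4 => (1 / 2 : ℝ) * ‖z.1 - A z.2‖ ^ 2) :=
    contDiff_const.mul ((contDiff_fst.sub (A.contDiff.comp contDiff_snd)).norm_sq ℝ)
  have e : lag = (fun z : E4 × E4 => (1 / 2 : ℝ) * ‖z.1 - A z.2‖ ^ 2) ∘
      (fun p : TangentBundle (𝓡 3) S3 =>
        (mvfderiv (𝓡 3) (Subtype.val : S3 → E4) p.1 p.2, (p.1 : E4))) := rfl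
  rw [e]
  exact h.contMDiff.comp ((contMDiff_fib n).prodMk_space (contMDiff_base n))

lemma contMDiff_sq (n : ℕ∞ω) : ContMDiff (𝓡 3).tangent 𝓘(ℝ, ℝ) n
    (fun p : TangentBundle (𝓡 3) S3 =>
      inner ℝ (mvfderiv (𝓡 3) (Subtype.val : S3 → E4) p.1 p.2)
        (mvfderiv (𝓡 3) (Subtype.val : S3 → E4) p.1 p.2)) := by
  have h : ContDiff ℝ n (fun z : E4 => (inner ℝ z z : ℝ)) := contDiff_id.inner ℝ contDiff_id
  exact h.contMDiff.comp (contMDiff_fib n)

/-- round metric -/
def roundMetric (x : S3) : TangentSpace (𝓡 3) x →ₗ[ℝ] TangentSpace (𝓡 3) x →ₗ[ℝ] ℝ :=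
  LinearMap.mk₂ ℝ (fun v w => inner ℝ (mvfderiv (𝓡 3) (Subtype.val : S3 → E4) x v)
        (mvfderiv (𝓡 3) (Subtype.val : S3 → E4) x w))
    (by intro a b c; rw [map_add, inner_add_left])
    (by intro a b c; rw [map_smul, inner_smul_left]; rfl)
    (by intro a b c; rw [map_add, inner_add_right])
    (by intro a b c; rw [map_smul, inner_smul_right]; rfl)

lemma roundMetric_apply (x : S3) (v w : TangentSpace (𝓡 3) x) :
    roundMetric x v w = inner ℝ (mvfderiv (𝓡 3) (Subtype.val : S3 → E4) x v)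
        (mvfderiv (𝓡 3) (Subtype.val : S3 → E4) x w) := rfl

lemma norm_A_le (x : E4) (h : ‖x‖ = 1) : ‖A x‖ ≤ 2 := by
  have h1 : ‖A x‖ ^ 2 ≤ 2 ^ 2 := by
    have h2 : ‖x‖ ^ 2 = 1 := by rw [h]; norm_num
    rw [EuclideanSpace.norm_sq_eq, Fin.sum_univ_four] at h2 ⊢
    simp only [Real.norm_eq_abs, sq_abs] at h2 ⊢
    have e0 : (A x) 0 = - x 1 := rfl
    have e1 : (A x) 1 = x 0 := rfl
    have e2 : (A x) 2 = -2 * x 3 := rfl
    have e3 : (A x) 3 = 2 * x 2 := rfl
    rw [e0, e1, e2, e3]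
    nlinarith [sq_nonneg (x 0), sq_nonneg (x 1)]
  exact le_of_sq_le_sq h1 (by norm_num)

lemma isConvexSuperlinear_lag : IsConvexSuperlinear (𝓡 3) lag where
  contMDiff := contMDiff_lag 2
  convex := by
    intro x v w hw
    set D := mvfderiv (𝓡 3) (Subtype.val : S3 → E4) x with hD
    have hDw : D w ≠ 0 := by
      intro h
      apply hw
      apply injective_mvfderiv_subtypeVal_sphere (n := 3) x
      rw [map_zero]
      exact h
    have h1 : (fun s : ℝ => lag ⟨x, v + s • w⟩) =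
        fun s : ℝ => (1 / 2) * ‖D v - A x‖ ^ 2 + s * inner ℝ (D v - A x) (D w)
          + s ^ 2 * ((1 / 2) * ‖D w‖ ^ 2) := by
      funext s
      have : D (v + s • w) - A x = (D v - A x) + s • D w := by
        rw [map_add, map_smul]; abel
      show (1 / 2) * ‖D (v + s • w) - A x‖ ^ 2 = _
      rw [this, norm_add_sq_real, inner_smul_right, norm_smul, mul_pow, Real.norm_eq_abs, sq_abs]
      ring
    rw [h1]
    have h2 : ∀ a b c : ℝ, iteratedDeriv 2 (fun s : ℝ => a + s * b + s ^ 2 * c) 0 = 2 * c := by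
      intro a b c
      rw [iteratedDeriv_succ, iteratedDeriv_one]
      have hd : deriv (fun s : ℝ => a + s * b + s ^ 2 * c) = fun s => b + 2 * s * c := by
        funext s
        have h3 : HasDerivAt (fun s : ℝ => a + s * b + s ^ 2 * c) (b + 2 * s * c) s := by
          have h4 := (((hasDerivAt_id s).mul_const b).const_add a).add
            (((hasDerivAt_id s).pow 2).mul_const c)
          convert! h4 using 1
          simp
        exact h3.deriv
      rw [hd]
      have h3 : HasDerivAt (fun s : ℝ => b + 2 * s * c) (2 * c) 0 := by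
        have h4 := (((hasDerivAt_id (0 : ℝ)).const_mul 2).mul_const c).const_add b
        convert! h4 using 1
        simp
      exact h3.deriv
    rw [h2]
    have : 0 < ‖D w‖ := norm_pos_iff.2 hDw
    positivity
  superlinear := by
    refine ⟨roundMetric, ?_, ?_, ?_, ?_⟩
    · intro x v w
      rw [roundMetric_apply, roundMetric_apply]
      exact real_inner_comm _ _
    · intro x v hv
      have : mvfderiv (𝓡 3) (Subtype.val : S3 → E4) x v ≠ 0 := by
        intro h
        apply hv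
        apply injective_mvfderiv_subtypeVal_sphere (n := 3) x
        rw [map_zero]
        exact h
      rw [roundMetric_apply]
      exact real_inner_self_pos.2 this
    · exact contMDiff_sq ∞
    · intro C
      refine ⟨2 * |C| + 6, fun x v hv => ?_⟩
      have h1 : √(roundMetric x v v) = ‖mvfderiv (𝓡 3) (Subtype.val : S3 → E4) x v‖ := by
        rw [roundMetric_apply, real_inner_self_eq_norm_sq, Real.sqrt_sq (norm_nonneg _)]
      rw [h1] at hv ⊢
      set y := mvfderiv (𝓡 3) (Subtype.val : S3 → E4) x v with hy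
      show C * ‖y‖ ≤ (1 / 2) * ‖y - A x‖ ^ 2
      have h2 : ‖A x‖ ≤ 2 := norm_A_le x (by simp)
      have h3 : ‖y‖ - 2 ≤ ‖y - A x‖ := by
        have := norm_sub_norm_le y (A x)
        linarith
      have h4 : C ≤ |C| := le_abs_self C
      have h5 : 0 ≤ |C| := abs_nonneg C
      have h6 : (‖y‖ - 2) ^ 2 ≤ ‖y - A x‖ ^ 2 := by
        apply pow_le_pow_left₀ _ h3
        linarith
      nlinarith [mul_le_mul_of_nonneg_right h4 (norm_nonneg y)]

/-! ## Reaching every point -/

lemma R_inner_neg (t : ℝ) (x y : E4) : inner ℝ (R (-t) y) x = inner ℝ (R t x) y := by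
  rw [← R_inner t, R_neg_R, real_inner_comm]

lemma R_periodic (t : ℝ) (n : ℤ) (x : E4) : R (t + n * (2 * Real.pi)) x = R t x := by
  have h1 : Real.cos (t + n * (2 * Real.pi)) = Real.cos t := Real.cos_add_int_mul_two_pi t n
  have h2 : Real.sin (t + n * (2 * Real.pi)) = Real.sin t := Real.sin_add_int_mul_two_pi t n
  have e : 2 * (t + n * (2 * Real.pi)) = 2 * t + ((2 * n : ℤ) : ℝ) * (2 * Real.pi) := by
    push_cast; ring
  have h3 : Real.cos (2 * (t + n * (2 * Real.pi))) = Real.cos (2 * t) := by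
    rw [e]; exact Real.cos_add_int_mul_two_pi _ _
  have h4 : Real.sin (2 * (t + n * (2 * Real.pi))) = Real.sin (2 * t) := by
    rw [e]; exact Real.sin_add_int_mul_two_pi _ _
  simp only [R, h1, h2, h3, h4]

/-- the base point -/
def x0 : E4 := !₂[4 / 5, 0, 3 / 5, 0]

lemma x0_norm : inner ℝ x0 x0 = (1 : ℝ) := by
  rw [inner4]; simp [x0]; norm_num

lemma x0_Ax0 : inner ℝ x0 (A x0) = (0 : ℝ) := by
  rw [inner4]; simp [x0, A_apply]

lemma Ax0_Ax0 : inner ℝ (A x0) (A x0) = (52 / 25 : ℝ) := by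
  rw [inner4]; simp [x0, A_apply]; norm_num

def af (y : E4) (t : ℝ) : ℝ := inner ℝ (R t x0) y
def bf (y : E4) (t : ℝ) : ℝ := inner ℝ (R t (A x0)) y

lemma af_eq (y : E4) (t : ℝ) : af y t = (4 / 5) * (Real.cos t * y 0 + Real.sin t * y 1)
    + (3 / 5) * (Real.cos (2 * t) * y 2 + Real.sin (2 * t) * y 3) := by
  rw [af, inner4]; simp [R, x0]; ring

lemma bf_eq (y : E4) (t : ℝ) : bf y t = (4 / 5) * (-Real.sin t * y 0 + Real.cos t * y 1)
    + (6 / 5) * (-Real.sin (2 * t) * y 2 + Real.cos (2 * t) * y 3) := by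
  rw [bf, inner4]; simp [R, x0, A_apply]; ring

lemma af_cont (y : E4) : Continuous (af y) := by
  have : af y = _ := funext (af_eq y)
  rw [this]; fun_prop

lemma bf_cont (y : E4) : Continuous (bf y) := by
  have : bf y = _ := funext (bf_eq y)
  rw [this]; fun_prop

lemma af_periodic (y : E4) (t : ℝ) (n : ℤ) : af y (t + n * (2 * Real.pi)) = af y t := by
  rw [af, R_periodic, af]
lemma bf_periodic (y : E4) (t : ℝ) (n : ℤ) : bf y (t + n * (2 * Real.pi)) = bf y t := by
  rw [bf, R_periodic, bf]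

lemma norm_inner_self (y : E4) (hy : ‖y‖ = 1) : inner ℝ y y = (1 : ℝ) := by
  rw [real_inner_self_eq_norm_sq, hy]; norm_num

/-- special values of trigonometric functions at multiples of `π / 4`. -/
lemma exists_large (y : E4) (hy : ‖y‖ = 1) : ∃ t : ℝ, 0 ≤ t ∧ (8 / 25 : ℝ) ≤ (bf y t) ^ 2 := by
  by_contra hcon
  push Not at hcon
  have hn := norm_inner_self y hy
  rw [inner4] at hn
  have hpi := Real.pi_pos
  have h0 := hcon 0 le_rfl
  have h2 := hcon (Real.pi / 2) (by positivity)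
  have h4 := hcon Real.pi (by positivity)
  have h6 := hcon (Real.pi / 2 + Real.pi) (by positivity)
  have h1 := hcon (Real.pi / 4) (by positivity)
  have h3 := hcon (Real.pi / 2 + Real.pi / 4) (by positivity)
  have h5 := hcon (Real.pi / 4 + Real.pi) (by positivity)
  have h7 := hcon (Real.pi / 2 + Real.pi / 4 + Real.pi) (by positivity)
  have hs2 : (√2 : ℝ) ^ 2 = 2 := Real.sq_sqrt (by norm_num)
  have c4 : Real.cos (Real.pi / 4) = √2 / 2 := Real.cos_pi_div_four
  have s4 : Real.sin (Real.pi / 4) = √2 / 2 := Real.sin_pi_div_four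
  have c34 : Real.cos (Real.pi / 2 + Real.pi / 4) = -(√2 / 2) := by
    rw [Real.cos_add]; simp
  have s34 : Real.sin (Real.pi / 2 + Real.pi / 4) = √2 / 2 := by
    rw [Real.sin_add]; simp
  have d1 : ∀ t : ℝ, Real.cos (2 * (t + Real.pi)) = Real.cos (2 * t) := fun t => by
    rw [show 2 * (t + Real.pi) = 2 * t + 2 * Real.pi by ring, Real.cos_add_two_pi]
  have d2 : ∀ t : ℝ, Real.sin (2 * (t + Real.pi)) = Real.sin (2 * t) := fun t => by
    rw [show 2 * (t + Real.pi) = 2 * t + 2 * Real.pi by ring, Real.sin_add_two_pi]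
  have e1 : Real.cos (2 * (Real.pi / 4)) = 0 := by
    rw [show 2 * (Real.pi / 4) = Real.pi / 2 by ring]; simp
  have e2 : Real.sin (2 * (Real.pi / 4)) = 1 := by
    rw [show 2 * (Real.pi / 4) = Real.pi / 2 by ring]; simp
  have e3 : Real.cos (2 * (Real.pi / 2 + Real.pi / 4)) = 0 := by
    rw [show 2 * (Real.pi / 2 + Real.pi / 4) = Real.pi + Real.pi / 2 by ring, Real.cos_add]; simp
  have e4 : Real.sin (2 * (Real.pi / 2 + Real.pi / 4)) = -1 := by
    rw [show 2 * (Real.pi / 2 + Real.pi / 4) = Real.pi + Real.pi / 2 by ring, Real.sin_add]; simp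
  have e5 : Real.cos (2 * (Real.pi / 2)) = -1 := by
    rw [show 2 * (Real.pi / 2) = Real.pi by ring]; simp
  have e6 : Real.sin (2 * (Real.pi / 2)) = 0 := by
    rw [show 2 * (Real.pi / 2) = Real.pi by ring]; simp
  rw [bf_eq] at h0 h1 h2 h3 h4 h5 h6 h7
  simp only [Real.cos_add_pi, Real.sin_add_pi, d1, d2, c4, s4, c34, s34, e1, e2, e3, e4, e5, e6,
    mul_zero, Real.cos_zero, Real.sin_zero, Real.cos_pi, Real.sin_pi, Real.cos_pi_div_two,
    Real.sin_pi_div_two, Real.cos_two_pi, Real.sin_two_pi] at h0 h1 h2 h3 h4 h5 h6 h7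
  nlinarith [sq_nonneg (y 2), sq_nonneg (y 3)]

lemma exists_zero (y : E4) : ∃ t : ℝ, 0 ≤ t ∧ bf y t = 0 := by
  have hpi := Real.pi_pos
  have hsum : bf y 0 + bf y (Real.pi / 2) + bf y Real.pi + bf y (Real.pi / 2 + Real.pi) = 0 := by
    have d1 : ∀ t : ℝ, Real.cos (2 * (t + Real.pi)) = Real.cos (2 * t) := fun t => by
      rw [show 2 * (t + Real.pi) = 2 * t + 2 * Real.pi by ring, Real.cos_add_two_pi]
    have d2 : ∀ t : ℝ, Real.sin (2 * (t + Real.pi)) = Real.sin (2 * t) := fun t => by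
      rw [show 2 * (t + Real.pi) = 2 * t + 2 * Real.pi by ring, Real.sin_add_two_pi]
    have e5 : Real.cos (2 * (Real.pi / 2)) = -1 := by
      rw [show 2 * (Real.pi / 2) = Real.pi by ring]; simp
    have e6 : Real.sin (2 * (Real.pi / 2)) = 0 := by
      rw [show 2 * (Real.pi / 2) = Real.pi by ring]; simp
    rw [bf_eq, bf_eq, bf_eq, bf_eq]
    simp only [Real.cos_add_pi, Real.sin_add_pi, d1, d2, e5, e6,
      mul_zero, Real.cos_zero, Real.sin_zero, Real.cos_pi, Real.sin_pi, Real.cos_pi_div_two,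
      Real.sin_pi_div_two, Real.cos_two_pi, Real.sin_two_pi]
    ring
  by_contra hcon
  push Not at hcon
  -- constant sign
  have key : (∀ t, 0 ≤ t → 0 < bf y t) ∨ (∀ t, 0 ≤ t → bf y t < 0) := by
    rcases lt_or_gt_of_ne (hcon 0 le_rfl) with h | h
    · right
      intro t ht
      by_contra h'
      push Not at h'
      obtain ⟨c, hc, hc0⟩ := intermediate_value_Icc ht (bf_cont y).continuousOn
        (show (0 : ℝ) ∈ Icc (bf y 0) (bf y t) from ⟨h.le, h'⟩)
      exact hcon c hc.1 hc0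
    · left
      intro t ht
      by_contra h'
      push Not at h'
      obtain ⟨c, hc, hc0⟩ := intermediate_value_Icc' ht (bf_cont y).continuousOn
        (show (0 : ℝ) ∈ Icc (bf y t) (bf y 0) from ⟨h', h.le⟩)
      exact hcon c hc.1 hc0
  rcases key with h | h
  · have := h 0 le_rfl
    have := h (Real.pi / 2) (by positivity)
    have := h (Real.pi) (by positivity)
    have := h (Real.pi / 2 + Real.pi) (by positivity)
    linarith
  · have := h 0 le_rfl
    have := h (Real.pi / 2) (by positivity)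
    have := h (Real.pi) (by positivity)
    have := h (Real.pi / 2 + Real.pi) (by positivity)
    linarith

/-- the reachability statement, in terms of explicit data -/
def Reach (y : E4) : Prop := ∃ T : ℝ, 0 < T ∧ ∃ (s : ℝ) (e : E4),
  inner ℝ e e = (1 : ℝ) ∧ inner ℝ e x0 = (0 : ℝ) ∧
  R T (Real.cos (s * T) • x0 + Real.sin (s * T) • e) = y ∧
  (1 / 2) * s ^ 2 + s * inner ℝ e (A x0) = (-1 / 10 : ℝ)

lemma reach_generic (y : E4) (hy : ‖y‖ = 1) (ha : ∀ t, (af y t) ^ 2 < 1) : Reach y := by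
  have hpi := Real.pi_pos
  have hpi3 := Real.pi_gt_three
  have hpi4 : Real.pi < 3.15 := Real.pi_lt_d2
  obtain ⟨t0, ht0, hb0⟩ := exists_large y hy
  obtain ⟨t1, ht1, hb1⟩ := exists_zero y
  set T0 := t0 + ((4 : ℤ) : ℝ) * (2 * Real.pi) with hT0
  set T1 := t1 + ((4 : ℤ) : ℝ) * (2 * Real.pi) with hT1
  have hT0p : 24 < T0 := by rw [hT0]; push_cast; linarith
  have hT1p : 24 < T1 := by rw [hT1]; push_cast; linarith
  set τ : ℝ → ℝ := fun t => Real.arccos (af y t) with hτ
  set β : ℝ → ℝ := fun t => bf y t / √(1 - (af y t) ^ 2) with hβ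
  have hsq : ∀ t, 0 < √(1 - (af y t) ^ 2) := fun t => Real.sqrt_pos.2 (by linarith [ha t])
  set m : ℤ := round (-(τ T0 + β T0 * T0) / (2 * Real.pi)) with hm
  set s : ℝ → ℝ := fun t => (τ t + 2 * Real.pi * m) / t with hs
  set F : ℝ → ℝ := fun t => (1 / 2) * (s t) ^ 2 + s t * β t + 1 / 10 with hF
  have hFc : ContinuousOn F (Ioi 0) := by
    have h1 : Continuous τ := Real.continuous_arccos.comp (af_cont y)
    have h2 : Continuous β := by
      apply (bf_cont y).div
      · exact (continuous_const.sub ((af_cont y).pow 2)).sqrt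
      · exact fun t => (hsq t).ne'
    have h3 : ContinuousOn s (Ioi 0) :=
      (h1.add continuous_const).continuousOn.div continuousOn_id (fun t ht => ne_of_gt ht)
    exact ((continuousOn_const.mul (h3.pow 2)).add (h3.mul h2.continuousOn)).add continuousOn_const
  -- sign at T1
  have hF1 : 0 < F T1 := by
    have : β T1 = 0 := by
      simp only [hβ, hT1, bf_periodic, hb1, zero_div]
    simp only [hF, this]
    nlinarith [sq_nonneg (s T1)]
  -- sign at T0
  have hF0 : F T0 < 0 := by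
    have hβ0 : (8 / 25 : ℝ) ≤ (β T0) ^ 2 := by
      have h1 : bf y T0 = bf y t0 := bf_periodic y t0 4
      simp only [hβ]
      rw [div_pow, Real.sq_sqrt (by linarith [ha T0]), h1, le_div_iff₀ (by linarith [ha T0])]
      nlinarith [sq_nonneg (af y T0)]
    have h1 : |-(τ T0 + β T0 * T0) / (2 * Real.pi) - m| ≤ 1 / 2 := abs_sub_round _
    have h2 : (s T0 + β T0) * T0 = τ T0 + β T0 * T0 + 2 * Real.pi * m := by
      simp only [hs]
      field_simp
      ring
    have h3 : |(s T0 + β T0) * T0| ≤ Real.pi := by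
      rw [h2]
      have h4 : τ T0 + β T0 * T0 + 2 * Real.pi * m
          = -(2 * Real.pi) * (-(τ T0 + β T0 * T0) / (2 * Real.pi) - m) := by
        field_simp
        ring
      rw [h4, abs_mul, abs_neg, abs_of_pos (by positivity : (0 : ℝ) < 2 * Real.pi)]
      calc 2 * Real.pi * |-(τ T0 + β T0 * T0) / (2 * Real.pi) - m| ≤ 2 * Real.pi * (1 / 2) := by
            gcongr
        _ = Real.pi := by ring
    have h5 : |s T0 + β T0| ≤ 0.14 := by
      rw [abs_mul, abs_of_pos (by linarith : (0 : ℝ) < T0)] at h3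
      by_contra h6
      push Not at h6
      nlinarith [abs_nonneg (s T0 + β T0)]
    have h6 : (s T0 + β T0) ^ 2 ≤ 0.14 ^ 2 := by
      rw [← sq_abs]
      exact pow_le_pow_left₀ (abs_nonneg _) h5 2
    simp only [hF]
    nlinarith
  -- intermediate value theorem
  obtain ⟨T, hT, hTF⟩ : ∃ T ∈ uIcc T0 T1, F T = 0 := by
    have hsub : uIcc T0 T1 ⊆ Ioi 0 := by
      intro t ht
      have := ht.1
      have h3 : (0 : ℝ) < min T0 T1 := lt_min (by linarith) (by linarith)
      exact lt_of_lt_of_le h3 this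
    have := intermediate_value_uIcc (hFc.mono hsub)
    obtain ⟨T, hT, hT'⟩ := this (show (0 : ℝ) ∈ uIcc (F T0) (F T1) from
      ⟨by rw [min_le_iff]; left; exact hF0.le, by rw [le_max_iff]; right; exact hF1.le⟩)
    exact ⟨T, hT, hT'⟩
  have hTp : 0 < T := by
    have := hT.1
    have h3 : (0 : ℝ) < min T0 T1 := lt_min (by linarith) (by linarith)
    exact lt_of_lt_of_le h3 this
  set a := af y T with ha'
  have ha1 : a ^ 2 < 1 := ha T
  have hyy := norm_inner_self y hy
  have hRy : inner ℝ (R (-T) y) x0 = a := R_inner_neg T x0 y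
  have hRyA : inner ℝ (R (-T) y) (A x0) = bf y T := R_inner_neg T (A x0) y
  have hRyy : inner ℝ (R (-T) y) (R (-T) y) = (1 : ℝ) := by rw [R_inner, hyy]
  have hst : s T * T = τ T + m * (2 * Real.pi) := by
    simp only [hs]; field_simp
  have hcos : Real.cos (s T * T) = a := by
    rw [hst, Real.cos_add_int_mul_two_pi]
    exact Real.cos_arccos (by nlinarith) (by nlinarith)
  have hsin : Real.sin (s T * T) = √(1 - a ^ 2) := by
    rw [hst, Real.sin_add_int_mul_two_pi]
    exact Real.sin_arccos _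
  have hq : 0 < √(1 - a ^ 2) := hsq T
  have hq2 : √(1 - a ^ 2) ^ 2 = 1 - a ^ 2 := Real.sq_sqrt (by linarith)
  have hAx : inner ℝ x0 (A x0) = (0 : ℝ) := x0_Ax0
  refine ⟨T, hTp, s T, (√(1 - a ^ 2))⁻¹ • (R (-T) y - a • x0), ?_, ?_, ?_, ?_⟩
  · rw [real_inner_smul_left, real_inner_smul_right, inner_sub_left, inner_sub_right,
      inner_sub_right, real_inner_smul_left, real_inner_smul_left, real_inner_smul_right,
      real_inner_smul_right, x0_norm, hRyy, hRy, real_inner_comm, hRy]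
    field_simp
    rw [hq2]
    ring
  · rw [real_inner_smul_left, inner_sub_left, real_inner_smul_left, x0_norm, hRy]
    ring
  · rw [hcos, hsin, smul_inv_smul₀ hq.ne']
    rw [show a • x0 + (R (-T) y - a • x0) = R (-T) y by abel]
    exact R_neg_R T y
  · rw [real_inner_smul_left, inner_sub_left, real_inner_smul_left, hAx, hRyA]
    have : (√(1 - a ^ 2))⁻¹ * (bf y T - a * 0) = β T := by
      simp only [hβ, mul_zero, sub_zero]
      rw [div_eq_inv_mul]
    rw [this]
    have : F T = (1 / 2) * (s T) ^ 2 + s T * β T + 1 / 10 := rfl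
    linarith

/-- auxiliary unit vector orthogonal to `x0` and `A x0` -/
def f0 : E4 := !₂[3 / 5, 0, -4 / 5, 0]

lemma f0_f0 : inner ℝ f0 f0 = (1 : ℝ) := by rw [inner4]; simp [f0]; norm_num
lemma f0_x0 : inner ℝ f0 x0 = (0 : ℝ) := by rw [inner4]; simp [f0, x0]; norm_num
lemma f0_Ax0 : inner ℝ f0 (A x0) = (0 : ℝ) := by rw [inner4]; simp [f0, x0, A_apply]
lemma Ax0_x0 : inner ℝ (A x0) x0 = (0 : ℝ) := by rw [real_inner_comm]; exact x0_Ax0

lemma exists_dir (s : ℝ) (h1 : 1 / 2 ≤ s) (h2 : s ≤ 1) :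
    ∃ e : E4, inner ℝ e e = (1 : ℝ) ∧ inner ℝ e x0 = (0 : ℝ) ∧
      (1 / 2) * s ^ 2 + s * inner ℝ e (A x0) = (-1 / 10 : ℝ) := by
  set q : ℝ := (-1 / 10 - (1 / 2) * s ^ 2) / (s * (52 / 25)) with hq
  have hs : 0 < s := by linarith
  have hq1 : q * (s * (52 / 25)) = -1 / 10 - (1 / 2) * s ^ 2 := by
    rw [hq]; field_simp
  have hq2 : q ^ 2 * (52 / 25) ≤ 1 := by
    have h3 : (q * (s * (52 / 25))) ^ 2 = (-1 / 10 - (1 / 2) * s ^ 2) ^ 2 := by rw [hq1]
    have h4 : (-1 / 10 - (1 / 2) * s ^ 2) ^ 2 ≤ (3 / 5) ^ 2 := by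
      have : s ^ 2 ≤ 1 := by nlinarith
      nlinarith [sq_nonneg s]
    have h5 : q ^ 2 * (s ^ 2 * (52 / 25) ^ 2) ≤ (3 / 5) ^ 2 := by
      calc q ^ 2 * (s ^ 2 * (52 / 25) ^ 2) = (q * (s * (52 / 25))) ^ 2 := by ring
        _ ≤ _ := by rw [h3]; exact h4
    have h6 : (1 / 4 : ℝ) ≤ s ^ 2 := by nlinarith
    nlinarith [sq_nonneg q, mul_le_mul_of_nonneg_left h6 (sq_nonneg q)]
  have hr : √(1 - q ^ 2 * (52 / 25)) ^ 2 = 1 - q ^ 2 * (52 / 25) :=
    Real.sq_sqrt (by linarith)
  have hAf : inner ℝ (A x0) f0 = (0 : ℝ) := by rw [real_inner_comm]; exact f0_Ax0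
  refine ⟨q • A x0 + √(1 - q ^ 2 * (52 / 25)) • f0, ?_, ?_, ?_⟩
  · simp only [inner_add_left, inner_add_right, real_inner_smul_left, real_inner_smul_right,
      Ax0_Ax0, f0_f0, f0_Ax0, hAf]
    nlinarith
  · simp only [inner_add_left, real_inner_smul_left, Ax0_x0, f0_x0]
    ring
  · simp only [inner_add_left, real_inner_smul_left, Ax0_Ax0, f0_Ax0]
    linarith

lemma pm_one {a : ℝ} (h : a ^ 2 = 1) : a = 1 ∨ a = -1 := by
  have : (a - 1) * (a + 1) = 0 := by ring_nf; linarith
  rcases mul_eq_zero.1 this with h | h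
  · left; linarith
  · right; linarith

lemma reach_special (y : E4) (hy : ‖y‖ = 1) (t0 : ℝ) (ha : (af y t0) ^ 2 = 1) : Reach y := by
  have hpi := Real.pi_pos
  have hpi3 := Real.pi_gt_three
  have hpi4 : Real.pi < 3.15 := Real.pi_lt_d2
  -- a large time in the same class
  obtain ⟨n, hn⟩ : ∃ n : ℤ, 24 < t0 + n * (2 * Real.pi) := by
    obtain ⟨n, hn⟩ := exists_nat_gt ((24 - t0) / (2 * Real.pi))
    refine ⟨n, ?_⟩
    rw [div_lt_iff₀ (by positivity)] at hn
    push_cast
    linarith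
  set T := t0 + n * (2 * Real.pi) with hT
  have hTpos : 0 < T := by linarith
  have haT : (af y T) ^ 2 = 1 := by rw [hT, af_periodic]; exact ha
  have hyy := norm_inner_self y hy
  have hRR : inner ℝ (R T x0) (R T x0) = (1 : ℝ) := by rw [R_inner, x0_norm]
  -- `y = ± R T x0`
  have hcase : y = R T x0 ∨ y = -(R T x0) := by
    rcases pm_one haT with h | h
    · left
      have : inner ℝ (R T x0 - y) (R T x0 - y) = (0 : ℝ) := by
        simp only [inner_sub_left, inner_sub_right, hRR, hyy, real_inner_comm (R T x0) y]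
        have h' : inner ℝ (R T x0) y = (1 : ℝ) := h
        rw [h']; ring
      have := inner_self_eq_zero.1 this
      exact (sub_eq_zero.1 this).symm
    · right
      have : inner ℝ (R T x0 + y) (R T x0 + y) = (0 : ℝ) := by
        simp only [inner_add_left, inner_add_right, hRR, hyy, real_inner_comm (R T x0) y]
        have h' : inner ℝ (R T x0) y = (-1 : ℝ) := h
        rw [h']; ring
      have := inner_self_eq_zero.1 this
      exact eq_neg_of_add_eq_zero_right this
  set j : ℤ := ⌈T / (4 * Real.pi)⌉ with hj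
  have hj1 : T / (4 * Real.pi) ≤ j := Int.le_ceil _
  have hj2 : (j : ℝ) < T / (4 * Real.pi) + 1 := Int.ceil_lt_add_one _
  rw [div_le_iff₀ (by positivity)] at hj1
  have hj3 : (j : ℝ) * (4 * Real.pi) < T + 4 * Real.pi := by
    have := mul_lt_mul_of_pos_right hj2 (by positivity : (0 : ℝ) < 4 * Real.pi)
    rwa [add_mul, div_mul_cancel₀ _ (by positivity), one_mul] at this
  rcases hcase with h | h
  · set s : ℝ := j * (2 * Real.pi) / T with hs
    have hsT : s * T = j * (2 * Real.pi) := by rw [hs]; field_simp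
    obtain ⟨e, he1, he2, he3⟩ := exists_dir s (by rw [hs, le_div_iff₀ hTpos]; linarith)
      (by rw [hs, div_le_one hTpos]; linarith)
    refine ⟨T, hTpos, s, e, he1, he2, ?_, he3⟩
    have hsin : Real.sin (j * (2 * Real.pi)) = 0 := by
      have := Real.sin_add_int_mul_two_pi 0 j
      rwa [zero_add, Real.sin_zero] at this
    rw [hsT, Real.cos_int_mul_two_pi, hsin]
    simp [h]
  · set s : ℝ := (j * (2 * Real.pi) + Real.pi) / T with hs
    have hsT : s * T = Real.pi + j * (2 * Real.pi) := by rw [hs]; field_simp; ring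
    obtain ⟨e, he1, he2, he3⟩ := exists_dir s (by rw [hs, le_div_iff₀ hTpos]; linarith)
      (by rw [hs, div_le_one hTpos]; linarith)
    refine ⟨T, hTpos, s, e, he1, he2, ?_, he3⟩
    rw [hsT, Real.cos_add_int_mul_two_pi, Real.sin_add_int_mul_two_pi, Real.cos_pi, Real.sin_pi,
      zero_smul, add_zero, R_smul, h]
    simp

lemma reach_all (y : E4) (hy : ‖y‖ = 1) : Reach y := by
  by_cases h : ∃ t, (af y t) ^ 2 = 1
  · obtain ⟨t, ht⟩ := h
    exact reach_special y hy t ht
  · push Not at h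
    apply reach_generic y hy
    intro t
    have h1 : |af y t| ≤ 1 := by
      have h2 := abs_real_inner_le_norm (R t x0) y
      have h3 : ‖R t x0‖ = 1 := by
        have : ‖R t x0‖ ^ 2 = 1 := by rw [← real_inner_self_eq_norm_sq, R_inner, x0_norm]
        nlinarith [norm_nonneg (R t x0)]
      rw [h3, hy, one_mul] at h2
      exact h2
    have h4 : (af y t) ^ 2 ≤ 1 := by
      rw [← sq_abs]; nlinarith [abs_nonneg (af y t)]
    exact lt_of_le_of_ne h4 (h t)

/-! ## The trajectories -/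

/-- the trajectory -/
def gcv (e : E4) (s t : ℝ) : E4 := R t (Real.cos (s * t) • x0 + Real.sin (s * t) • e)
/-- its unit momentum -/
def qcv (e : E4) (s t : ℝ) : E4 := R t (-(Real.sin (s * t)) • x0 + Real.cos (s * t) • e)

lemma hasDerivAt_gcv (e : E4) (s t : ℝ) :
    HasDerivAt (gcv e s) (A (gcv e s t) + s • qcv e s t) t := by
  have h1 : HasDerivAt (fun t : ℝ => s * t) s t := by
    simpa using (hasDerivAt_id t).const_mul s
  have h2 : HasDerivAt (fun t : ℝ => Real.cos (s * t) • x0 + Real.sin (s * t) • e)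
      ((-Real.sin (s * t) * s) • x0 + (Real.cos (s * t) * s) • e) t :=
    (h1.cos.smul_const x0).add (h1.sin.smul_const e)
  have h3 := hasDerivAt_R h2
  convert! h3 using 1
  rw [gcv, qcv, ← R_smul]
  congr 2
  rw [smul_add, smul_smul, smul_smul]
  ring_nf

lemma hasDerivAt_qcv (e : E4) (s t : ℝ) :
    HasDerivAt (qcv e s) (A (qcv e s t) - s • gcv e s t) t := by
  have h1 : HasDerivAt (fun t : ℝ => s * t) s t := by
    simpa using (hasDerivAt_id t).const_mul s
  have h2 : HasDerivAt (fun t : ℝ => -(Real.sin (s * t)) • x0 + Real.cos (s * t) • e)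
      ((-(Real.cos (s * t) * s)) • x0 + (-Real.sin (s * t) * s) • e) t :=
    (h1.sin.neg.smul_const x0).add (h1.cos.smul_const e)
  have h3 := hasDerivAt_R h2
  convert! h3 using 1
  rw [gcv, qcv, sub_eq_add_neg, ← neg_smul, ← R_smul]
  congr 2
  rw [smul_add, smul_smul, smul_smul]
  ring_nf

lemma gcv_inner (e : E4) (s t : ℝ) (he : inner ℝ e e = (1 : ℝ)) (hx : inner ℝ e x0 = (0 : ℝ)) :
    inner ℝ (gcv e s t) (gcv e s t) = (1 : ℝ) := by
  have hx' : inner ℝ x0 e = (0 : ℝ) := by rw [real_inner_comm]; exact hx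
  rw [gcv, R_inner]
  simp only [inner_add_left, inner_add_right, real_inner_smul_left, real_inner_smul_right,
    x0_norm, he, hx, hx']
  nlinarith [Real.sin_sq_add_cos_sq (s * t)]

lemma qcv_inner (e : E4) (s t : ℝ) (he : inner ℝ e e = (1 : ℝ)) (hx : inner ℝ e x0 = (0 : ℝ)) :
    inner ℝ (qcv e s t) (qcv e s t) = (1 : ℝ) := by
  have hx' : inner ℝ x0 e = (0 : ℝ) := by rw [real_inner_comm]; exact hx
  rw [qcv, R_inner]
  simp only [inner_add_left, inner_add_right, real_inner_smul_left, real_inner_smul_right,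
    x0_norm, he, hx, hx']
  nlinarith [Real.sin_sq_add_cos_sq (s * t)]

lemma A_self (x : E4) : inner ℝ x (A x) = (0 : ℝ) := by
  have h := A_skew x x
  rw [real_inner_comm] at h
  linarith

lemma gcv_qcv (e : E4) (s t : ℝ) :
    inner ℝ (A (gcv e s t)) (qcv e s t) = (inner ℝ e (A x0) : ℝ) := by
  rw [gcv, qcv, ← R_A, R_inner]
  have h1 : inner ℝ (A e) x0 = -(inner ℝ e (A x0) : ℝ) := A_skew e x0
  have h2 : inner ℝ (A x0) e = (inner ℝ e (A x0) : ℝ) := real_inner_comm _ _
  have h3 : inner ℝ (A x0) x0 = (0 : ℝ) := Ax0_x0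
  have h4 : inner ℝ (A e) e = (0 : ℝ) := by rw [real_inner_comm]; exact A_self e
  simp only [map_add, map_smul, inner_add_left, inner_add_right, real_inner_smul_left,
    real_inner_smul_right, h1, h2, h3, h4]
  have := Real.sin_sq_add_cos_sq (s * t)
  linear_combination (inner ℝ e (A x0) : ℝ) * this

lemma contDiff_gcv (e : E4) (s : ℝ) (n : ℕ∞ω) : ContDiff ℝ n (gcv e s) := by
  have hc : ContDiff ℝ n (fun t : ℝ => Real.cos (s * t) • x0 + Real.sin (s * t) • e) := by
    fun_prop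
  have hi : ∀ i, ContDiff ℝ n
      (fun t : ℝ => (Real.cos (s * t) • x0 + Real.sin (s * t) • e : E4) i) := by
    intro i
    simp only [PiLp.add_apply, PiLp.smul_apply, smul_eq_mul]
    fun_prop
  rw [contDiff_piLp]
  intro i
  fin_cases i
  · exact (Real.contDiff_cos.mul (hi 0)).sub (Real.contDiff_sin.mul (hi 1))
  · exact (Real.contDiff_sin.mul (hi 0)).add (Real.contDiff_cos.mul (hi 1))
  · exact ((Real.contDiff_cos.comp (contDiff_const.mul contDiff_id)).mul (hi 2)).sub
      ((Real.contDiff_sin.comp (contDiff_const.mul contDiff_id)).mul (hi 3))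
  · exact ((Real.contDiff_sin.comp (contDiff_const.mul contDiff_id)).mul (hi 2)).add
      ((Real.contDiff_cos.comp (contDiff_const.mul contDiff_id)).mul (hi 3))

lemma mem_S3 {x : E4} (h : inner ℝ x x = (1 : ℝ)) : x ∈ sphere (0 : E4) 1 := by
  rw [mem_sphere_zero_iff_norm]
  rw [real_inner_self_eq_norm_sq] at h
  nlinarith [norm_nonneg x]

lemma lag_velocity (γ : ℝ → S3) (t : ℝ) (h : MDifferentiableAt 𝓘(ℝ, ℝ) (𝓡 3) γ t) :
    lag (velocity (𝓡 3) γ t) =
      (1 / 2) * ‖deriv (fun t => (γ t : E4)) t - A (γ t)‖ ^ 2 := by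
  rw [← velocity_val γ t h]
  rfl

lemma energy_lag (p : TangentBundle (𝓡 3) S3) :
    energy (𝓡 3) lag p = (1 / 2) * ‖mvfderiv (𝓡 3) (Subtype.val : S3 → E4) p.1 p.2‖ ^ 2
      - (1 / 2) * ‖A (p.1 : E4)‖ ^ 2 := by
  set y := mvfderiv (𝓡 3) (Subtype.val : S3 → E4) p.1 p.2 with hy
  have h1 : (fun s : ℝ => lag ⟨p.1, s • p.2⟩) =
      fun s : ℝ => (1 / 2) * ‖s • y - A (p.1 : E4)‖ ^ 2 := by
    funext s
    show (1 / 2) * ‖mvfderiv (𝓡 3) (Subtype.val : S3 → E4) p.1 (s • p.2) - A (p.1 : E4)‖ ^ 2 = _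
    rw [map_smul]
  have h2 : HasDerivAt (fun s : ℝ => (1 / 2) * ‖s • y - A (p.1 : E4)‖ ^ 2)
      ((1 / 2) * (2 * inner ℝ ((1 : ℝ) • y - A (p.1 : E4)) y)) 1 := by
    have h3 : HasDerivAt (fun s : ℝ => s • y - A (p.1 : E4)) y 1 := by
      have := ((hasDerivAt_id (1 : ℝ)).smul_const y).sub_const (A (p.1 : E4))
      simpa using this
    exact h3.norm_sq.const_mul _
  have h4 : lag p = (1 / 2) * ‖y - A (p.1 : E4)‖ ^ 2 := rfl
  rw [energy, h1, h2.deriv, h4, one_smul]
  have h5 : ‖y - A (p.1 : E4)‖ ^ 2 = inner ℝ (y - A (p.1 : E4)) (y - A (p.1 : E4)) :=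
    (real_inner_self_eq_norm_sq _).symm
  have h6 : ‖y‖ ^ 2 = inner ℝ y y := (real_inner_self_eq_norm_sq _).symm
  have h7 : ‖A (p.1 : E4)‖ ^ 2 = inner ℝ (A (p.1 : E4)) (A (p.1 : E4)) :=
    (real_inner_self_eq_norm_sq _).symm
  rw [h5, h6, h7]
  simp only [inner_sub_left, inner_sub_right, real_inner_comm y (A (p.1 : E4))]
  ring

lemma extremal_gcv (e : E4) (s T : ℝ) (γ : ℝ → S3) (hγ : ∀ t, (γ t : E4) = gcv e s t) :
    IsExtremal (𝓡 3) lag T γ := by
  have hγc : ∀ n : ℕ∞ω, ContMDiff 𝓘(ℝ, ℝ) (𝓡 3) n γ := by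
    intro n
    have h1 : ContMDiff 𝓘(ℝ, ℝ) 𝓘(ℝ, E4) n (fun t => (γ t : E4)) := by
      have : (fun t => (γ t : E4)) = gcv e s := funext hγ
      rw [this]
      exact (contDiff_gcv e s n).contMDiff
    exact h1.codRestrict_sphere (n := 3) (fun t => (γ t).2)
  refine ⟨hγc 2, ?_⟩
  intro Γ hΓ h0 ha hb
  have hG : ContDiff ℝ 2 (fun z => (Γ z : E4)) := by
    rw [← contMDiff_iff_contDiff]
    exact (contMDiff_coe_sphere (n := 3)).comp hΓ
  have hrew : (fun u => action (𝓡 3) lag T (fun t => Γ (u, t))) =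
      fun u => ∫ t in (0 : ℝ)..T,
        (1 / 2) * ‖deriv (fun t => (Γ (u, t) : E4)) t - A (Γ (u, t) : E4)‖ ^ 2 := by
    funext u
    have hu : ContMDiff 𝓘(ℝ, ℝ) (𝓡 3) 2 (fun t => Γ (u, t)) := by
      have : ContMDiff 𝓘(ℝ, ℝ) 𝓘(ℝ, ℝ × ℝ) 2 (fun t : ℝ => (u, t)) := by
        rw [contMDiff_iff_contDiff]; fun_prop
      exact hΓ.comp this
    rw [action]
    congr 1
    funext t
    exact lag_velocity _ t ((hu t).mdifferentiableAt (by norm_num))
  rw [hrew]
  exact first_variation (fun z => (Γ z : E4)) hG (fun z => by simp) T (gcv e s) (qcv e s) s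
    (hasDerivAt_gcv e s) (hasDerivAt_qcv e s) (fun t => by simp only [h0, hγ])
    (fun u => by simp only [ha, hγ]) (fun u => by simp only [hb, hγ])

lemma energy_gcv (e : E4) (s : ℝ) (he : inner ℝ e e = (1 : ℝ)) (hx : inner ℝ e x0 = (0 : ℝ))
    (γ : ℝ → S3) (hγ : ∀ t, (γ t : E4) = gcv e s t) (t : ℝ) :
    energy (𝓡 3) lag (velocity (𝓡 3) γ t) = (1 / 2) * s ^ 2 + s * inner ℝ e (A x0) := by
  have hγc : ContMDiff 𝓘(ℝ, ℝ) (𝓡 3) 1 γ := by
    have h1 : ContMDiff 𝓘(ℝ, ℝ) 𝓘(ℝ, E4) 1 (fun t => (γ t : E4)) := by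
      have : (fun t => (γ t : E4)) = gcv e s := funext hγ
      rw [this]
      exact (contDiff_gcv e s 1).contMDiff
    exact h1.codRestrict_sphere (n := 3) (fun t => (γ t).2)
  have hv := velocity_val γ t ((hγc t).mdifferentiableAt one_ne_zero)
  have hd : deriv (fun t => (γ t : E4)) t = A (gcv e s t) + s • qcv e s t := by
    have : (fun t => (γ t : E4)) = gcv e s := funext hγ
    rw [this]
    exact (hasDerivAt_gcv e s t).deriv
  rw [energy_lag]
  have h1 : mvfderiv (𝓡 3) (Subtype.val : S3 → E4) (velocity (𝓡 3) γ t).1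
      (velocity (𝓡 3) γ t).2 = A (gcv e s t) + s • qcv e s t := by
    rw [← hd]; exact hv
  have h2 : ((velocity (𝓡 3) γ t).1 : E4) = gcv e s t := hγ t
  rw [h1, h2, ← real_inner_self_eq_norm_sq, ← real_inner_self_eq_norm_sq]
  simp only [inner_add_left, inner_add_right, real_inner_smul_left, real_inner_smul_right,
    qcv_inner e s t he hx, real_inner_comm (A (gcv e s t)) (qcv e s t), gcv_qcv]
  have h3 : inner ℝ (qcv e s t) (A (gcv e s t)) = (inner ℝ e (A x0) : ℝ) := by
    rw [real_inner_comm]; exact gcv_qcv e s t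
  try rw [h3]
  ring

lemma connecting_lag : (-1 / 10 : ℝ) ∈ connectingEnergies (𝓡 3) lag := by
  refine ⟨⟨x0, mem_S3 x0_norm⟩, fun y => ?_⟩
  obtain ⟨T, hT, s, e, he, hx, hy, hE⟩ := reach_all (y : E4) (by simp)
  refine ⟨T, hT, fun t => ⟨gcv e s t, mem_S3 (gcv_inner e s t he hx)⟩,
    extremal_gcv e s T _ (fun t => rfl), ?_, ?_, ?_⟩
  · apply Subtype.ext
    show gcv e s 0 = x0
    ext i
    fin_cases i <;> simp [gcv, R]
  · apply Subtype.ext
    exact hy
  · intro t _
    rw [energy_gcv e s he hx _ (fun t => rfl) t]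
    exact hE

lemma connecting_bddBelow : BddBelow (connectingEnergies (𝓡 3) lag) := by
  refine ⟨-2, ?_⟩
  rintro h ⟨x, hx⟩
  obtain ⟨T, hT, γ, -, -, -, hE⟩ := hx x
  have h1 := hE 0 ⟨le_rfl, hT.le⟩
  rw [← h1, energy_lag]
  have h2 : ‖A ((velocity (𝓡 3) γ 0).1 : E4)‖ ≤ 2 := norm_A_le _ (by simp)
  have h3 := norm_nonneg (A ((velocity (𝓡 3) γ 0).1 : E4))
  nlinarith [sq_nonneg ‖mvfderiv (𝓡 3) (Subtype.val : S3 → E4) (velocity (𝓡 3) γ 0).1
    (velocity (𝓡 3) γ 0).2‖]

/-! ## The critical value -/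

lemma lag_nonneg (p : TangentBundle (𝓡 3) S3) : 0 ≤ lag p := by
  unfold lag; positivity

/-- the closed orbit `(e^{it}, 0)` of the field `A` -/
def circ (t : ℝ) : E4 := !₂[Real.cos t, Real.sin t, 0, 0]

lemma circ_mem (t : ℝ) : circ t ∈ sphere (0 : E4) 1 := by
  apply mem_S3
  rw [inner4]
  simp [circ]
  nlinarith [Real.sin_sq_add_cos_sq t]

lemma hasDerivAt_circ (t : ℝ) : HasDerivAt circ (A (circ t)) t := by
  apply hasDerivAt_E4
  intro i
  fin_cases i
  · simpa [circ, A_apply] using Real.hasDerivAt_cos t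
  · simpa [circ, A_apply] using Real.hasDerivAt_sin t
  · simpa [circ, A_apply] using hasDerivAt_const t (0 : ℝ)
  · simpa [circ, A_apply] using hasDerivAt_const t (0 : ℝ)

lemma contDiff_circ (n : ℕ∞ω) : ContDiff ℝ n circ := by
  rw [contDiff_piLp]
  intro i
  fin_cases i
  · exact Real.contDiff_cos
  · exact Real.contDiff_sin
  · exact contDiff_const
  · exact contDiff_const

lemma isGLB_nonnegLevels : IsGLB (nonnegLevels (𝓡 3) lag) 0 := by
  constructor
  · intro k hk
    set γ : ℝ → S3 := fun t => ⟨circ t, circ_mem t⟩ with hγ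
    have hpi := Real.pi_pos
    have hγc : ∀ n : ℕ∞ω, ContMDiff 𝓘(ℝ, ℝ) (𝓡 3) n γ := by
      intro n
      exact (contDiff_circ n).contMDiff.codRestrict_sphere (n := 3) circ_mem
    have hac : IsACCurve (𝓡 3) (2 * Real.pi) γ := by
      refine ⟨(hγc 0).continuous.continuousOn, fun f hf => ?_⟩
      have h1 : ContDiff ℝ 1 (f ∘ γ) := by
        rw [← contMDiff_iff_contDiff]
        exact (hf.of_le (by norm_num)).comp (hγc 1)
      exact h1.contDiffOn.absolutelyContinuousOnInterval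
    have hclosed : γ 0 = γ (2 * Real.pi) := by
      apply Subtype.ext
      show circ 0 = circ (2 * Real.pi)
      simp [circ]
    have h := hk (2 * Real.pi) (by positivity) γ hac hclosed
    have hL : ∀ t, lag (velocity (𝓡 3) γ t) = 0 := by
      intro t
      rw [lag_velocity γ t ((hγc 1 t).mdifferentiableAt one_ne_zero)]
      have : deriv (fun t => (γ t : E4)) t = A (circ t) := (hasDerivAt_circ t).deriv
      rw [this]
      simp [hγ]
    simp only [hL, zero_add] at h
    rw [intervalIntegral.integral_const, smul_eq_mul, sub_zero] at h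
    by_contra hneg
    push Not at hneg
    nlinarith
  · intro b hb
    apply hb
    intro T hT γ _ _
    apply intervalIntegral.integral_nonneg hT.le
    intro t _
    rw [add_zero]
    exact lag_nonneg _

/-! ## The counterexample -/

lemma lift_id (L : TangentBundle (𝓡 3) S3 → ℝ) : liftLagrangian (𝓡 3) (id : S3 → S3) L = L := by
  funext v
  rw [liftLagrangian, tangentMap_id]
  rfl

lemma isUniversalCovering_id : IsUniversalCovering (𝓡 3) (id : S3 → S3) where
  simplyConnected := simplyConnected_S3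
  isCoveringMap := isLocalHomeomorph_iff_isCoveringMap.1 (Homeomorph.refl S3).isLocalHomeomorph
  isLocalDiffeomorph := (Diffeomorph.refl (𝓡 3) S3 ∞).isLocalDiffeomorph

/-- **Disproof of Q1.** -/
theorem result :
    ∃ (π : S3 → S3) (L : TangentBundle (𝓡 3) S3 → ℝ),
      IsUniversalCovering (𝓡 3) π ∧ IsConvexSuperlinear (𝓡 3) L ∧
      ∃ c r : ℝ, IsGLB (nonnegLevels (𝓡 3) (liftLagrangian (𝓡 3) π L)) c ∧
        IsGLB (connectingEnergies (𝓡 3) (liftLagrangian (𝓡 3) π L)) r ∧ r < c := by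
  refine ⟨id, lag, isUniversalCovering_id, isConvexSuperlinear_lag, 0, ?_⟩
  rw [lift_id]
  obtain ⟨r, hr⟩ := Real.exists_isGLB ⟨_, connecting_lag⟩ connecting_bddBelow
  refine ⟨r, isGLB_nonnegLevels, hr, ?_⟩
  have := hr.1 connecting_lag
  linarith

end Pool.Agent.Results.MP_82af14_an.S3Disproof
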